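import Mathlib

set_option autoImplicit false

/-! The join of valuation rings and approximation. -/

namespace Pool.Agent.Helper40.ET

section

variable {F K : Type} [Field F] [Field K] [Algebra F K]

/-- the valuation ring generated by a valuation ring of the big field and one of the small
field -/
def jn (W : ValuationSubring K) (S : ValuationSubring F) : ValuationSubring K where
  carrier := {x | ∃ w ∈ W, ∃ s ∈ S, x = w * algebraMap F K s}
  mul_mem' := by
    rintro _ _ ⟨w, hw, s, hs, rfl⟩ ⟨w', hw', s', hs', rfl⟩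
    exact ⟨w * w', W.mul_mem _ _ hw hw', s * s', S.mul_mem _ _ hs hs', by rw [map_mul]; ring⟩
  one_mem' := ⟨1, W.one_mem, 1, S.one_mem, by rw [map_one, one_mul]⟩
  zero_mem' := ⟨0, W.zero_mem, 1, S.one_mem, by rw [zero_mul]⟩
  neg_mem' := by
    rintro _ ⟨w, hw, s, hs, rfl⟩
    exact ⟨-w, W.neg_mem _ hw, s, hs, by ring⟩
  add_mem' := by
    rintro _ _ ⟨w, hw, s, hs, rfl⟩ ⟨w', hw', s', hs', rfl⟩
    by_cases h1 : s = 0
    · exact ⟨w', hw', s', hs', by rw [h1, map_zero, mul_zero, zero_add]⟩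
    by_cases h2 : s' = 0
    · exact ⟨w, hw, s, hs, by rw [h2, map_zero, mul_zero, add_zero]⟩
    have h1' : algebraMap F K s ≠ 0 := by rwa [Ne, map_eq_zero]
    have h2' : algebraMap F K s' ≠ 0 := by rwa [Ne, map_eq_zero]
    rcases W.mem_or_inv_mem (algebraMap F K (s / s')) with h | h
    · refine ⟨w * algebraMap F K (s / s') + w', W.add_mem _ _ (W.mul_mem _ _ hw h) hw', s', hs',
        ?_⟩
      rw [map_div₀]
      field_simp
    · rw [← map_inv₀, inv_div] at h
      refine ⟨w + w' * algebraMap F K (s' / s), W.add_mem _ _ hw (W.mul_mem _ _ hw' h), s, hs, ?_⟩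
      rw [map_div₀]
      field_simp
  mem_or_inv_mem' := by
    intro x
    rcases W.mem_or_inv_mem x with h | h
    · exact Or.inl ⟨x, h, 1, S.one_mem, by rw [map_one, mul_one]⟩
    · exact Or.inr ⟨x⁻¹, h, 1, S.one_mem, by rw [map_one, mul_one]⟩

lemma mem_jn {W : ValuationSubring K} {S : ValuationSubring F} {x : K} :
    x ∈ jn W S ↔ ∃ w ∈ W, ∃ s ∈ S, x = w * algebraMap F K s := Iff.rfl

lemma le_jn (W : ValuationSubring K) (S : ValuationSubring F) : W ≤ jn W S :=
  fun x hx => ⟨x, hx, 1, S.one_mem, by rw [map_one, mul_one]⟩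

lemma map_mem_jn (W : ValuationSubring K) {S : ValuationSubring F} {s : F} (hs : s ∈ S) :
    algebraMap F K s ∈ jn W S := ⟨1, W.one_mem, s, hs, by rw [one_mul]⟩

/-- the join of two valuation rings of one field -/
abbrev jo (R S : ValuationSubring F) : ValuationSubring F := jn R S

lemma right_le_jo (R S : ValuationSubring F) : S ≤ jo R S := fun _ hx => map_mem_jn R hx

lemma mem_jo {R S : ValuationSubring F} {x : F} :
    x ∈ jo R S ↔ ∃ r ∈ R, ∃ s ∈ S, x = r * s := Iff.rfl

/-- the restriction of the join -/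
lemma comap_jn (W : ValuationSubring K) (S : ValuationSubring F) :
    (jn W S).comap (algebraMap F K) = jo (W.comap (algebraMap F K)) S := by
  ext f
  rw [ValuationSubring.mem_comap, mem_jn, mem_jo]
  constructor
  · rintro ⟨w, hw, s, hs, e⟩
    by_cases h : s = 0
    · rw [h, map_zero, mul_zero, map_eq_zero] at e
      exact ⟨0, ValuationSubring.zero_mem _, 0, S.zero_mem, by rw [e, mul_zero]⟩
    · have h' : algebraMap F K s ≠ 0 := by rwa [Ne, map_eq_zero]
      refine ⟨f / s, ?_, s, hs, by rw [div_mul_cancel₀ _ h]⟩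
      rw [ValuationSubring.mem_comap, map_div₀, e, mul_div_cancel_right₀ _ h']
      exact hw
  · rintro ⟨r, hr, s, hs, e⟩
    exact ⟨algebraMap F K r, hr, s, hs, by rw [← map_mul, e]⟩

lemma jo_of_le {R S : ValuationSubring F} (h : R ≤ S) : jo R S = S := by
  refine le_antisymm ?_ (right_le_jo R S)
  rintro x ⟨r, hr, s, hs, rfl⟩
  exact S.mul_mem _ _ (h hr) hs

lemma comap_jn_of_le {W : ValuationSubring K} {S : ValuationSubring F}
    (h : W.comap (algebraMap F K) ≤ S) : (jn W S).comap (algebraMap F K) = S := by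
  rw [comap_jn, jo_of_le h]

/-- an element which is small for the first ring and a unit of a proper overring -/
lemma exists_small_unit {R Q : ValuationSubring F} (h : R < Q) :
    ∃ a : F, a ∈ Q ∧ a⁻¹ ∈ Q ∧ a ≠ 0 ∧ R.valuation a < 1 := by
  obtain ⟨q, hq, hqR⟩ := SetLike.exists_of_lt h
  have hq0 : q ≠ 0 := fun e => hqR (e ▸ R.zero_mem)
  have h0 : 0 < R.valuation q := zero_lt_iff.2 ((Valuation.ne_zero_iff _).2 hq0)
  have h1 : R.valuation q⁻¹ < 1 := by
    rw [map_inv₀, inv_lt_one₀ h0, ← not_le, R.valuation_le_one_iff]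
    exact hqR
  refine ⟨q⁻¹, h.le ((R.valuation_le_one_iff _).1 h1.le), by rwa [inv_inv], inv_ne_zero hq0, h1⟩

lemma exists_small_unit' {R Q : ValuationSubring F} (h : R < Q) {α : F} (hα : α ∈ Q)
    (hα' : α⁻¹ ∈ Q) (hα0 : α ≠ 0) :
    ∃ a : F, a ∈ Q ∧ a⁻¹ ∈ Q ∧ a ≠ 0 ∧ R.valuation a < 1 ∧ R.valuation a < R.valuation α := by
  obtain ⟨a, h1, h2, h3, h4⟩ := exists_small_unit h
  rcases lt_or_ge (R.valuation α) 1 with h5 | h5
  · refine ⟨a * α, Q.mul_mem _ _ h1 hα, ?_, mul_ne_zero h3 hα0, ?_, ?_⟩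
    · rw [mul_inv]
      exact Q.mul_mem _ _ h2 hα'
    · rw [map_mul]
      exact mul_lt_one_of_nonneg_of_lt_one_left zero_le h4 h5.le
    · rw [map_mul]
      exact mul_lt_of_lt_one_left (zero_lt_iff.2 ((Valuation.ne_zero_iff _).2 hα0)) h4
  · exact ⟨a, h1, h2, h3, h4, h4.trans_le h5⟩

/-- approximation of `0` and `1` -/
lemma approx01 {R S : ValuationSubring F} (hR : R < jo R S) (hS : S < jo R S) {α β : F}
    (hα : α ∈ jo R S) (hα' : α⁻¹ ∈ jo R S) (hα0 : α ≠ 0) (hβ : β ∈ jo R S)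
    (hβ' : β⁻¹ ∈ jo R S) (hβ0 : β ≠ 0) :
    ∃ e : F, R.valuation e < R.valuation α ∧ S.valuation (1 - e) < S.valuation β := by
  obtain ⟨a, ha1, ha2, ha0, ha3, ha4⟩ := exists_small_unit' hR hα hα' hα0
  obtain ⟨b, hb1, hb2, hb0, hb3, hb4⟩ := exists_small_unit' hS hβ hβ' hβ0
  have h1 : a⁻¹ * b⁻¹ ∈ jo R S := (jo R S).mul_mem _ _ ha2 hb2
  obtain ⟨r, hr, s, hs, e⟩ := mem_jo.1 h1
  have hrs : (a * r) * (b * s) = 1 := by
    have : (a * r) * (b * s) = a * b * (r * s) := by ring
    rw [this, ← e]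
    field_simp
  have ht0 : a * r ≠ 0 := left_ne_zero_of_mul_eq_one hrs
  have ht1 : R.valuation (a * r) ≤ R.valuation a := by
    rw [map_mul]
    exact mul_le_of_le_one_right zero_le ((R.valuation_le_one_iff _).2 hr)
  have ht2 : S.valuation (a * r)⁻¹ ≤ S.valuation b := by
    rw [inv_eq_of_mul_eq_one_right hrs, map_mul]
    exact mul_le_of_le_one_right zero_le ((S.valuation_le_one_iff _).2 hs)
  obtain ⟨t, ht⟩ : ∃ t, t = a * r := ⟨_, rfl⟩
  rw [← ht] at ht0 ht1 ht2
  have ht3 : 1 < S.valuation t := by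
    have h2 := ht2.trans_lt hb3
    rw [map_inv₀, inv_lt_one₀ (zero_lt_iff.2 ((Valuation.ne_zero_iff _).2 ht0))] at h2
    exact h2
  have h1t : R.valuation (1 + t) = 1 := by
    rw [Valuation.map_one_add_of_lt _ (ht1.trans_lt ha3)]
  have h1t0 : 1 + t ≠ 0 := by
    intro e
    rw [e, map_zero] at h1t
    exact zero_ne_one h1t
  have h1s : S.valuation (1 + t) = S.valuation t := by
    rw [Valuation.map_add_eq_of_lt_right]
    rw [map_one]
    exact ht3
  refine ⟨t / (1 + t), ?_, ?_⟩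
  · rw [map_div₀, h1t, div_one]
    exact ht1.trans_lt ha4
  · have e2 : 1 - t / (1 + t) = (1 + t)⁻¹ := by field_simp; ring
    rw [e2, map_inv₀, h1s, ← map_inv₀]
    exact ht2.trans_lt hb4

lemma lt_one_of_nonunit {R Q : ValuationSubring F} (h : R ≤ Q) {x : F}
    (hx : Q.valuation x < 1) : R.valuation x < 1 := by
  by_cases hx0 : x = 0
  · rw [hx0, map_zero]
    exact zero_lt_one
  have h0 : 0 < Q.valuation x := zero_lt_iff.2 ((Valuation.ne_zero_iff _).2 hx0)
  have h0' : 0 < R.valuation x := zero_lt_iff.2 ((Valuation.ne_zero_iff _).2 hx0)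
  by_contra hc
  rw [not_lt] at hc
  have h1 : x⁻¹ ∈ R := by
    rw [← R.valuation_le_one_iff, map_inv₀]
    exact inv_le_one_of_one_le₀ hc
  have h2 := h h1
  rw [← Q.valuation_le_one_iff, map_inv₀] at h2
  exact absurd h2 (not_le.2 ((one_lt_inv₀ h0).2 hx))

/-- Approximation: a unit of the join is a product of elements close to one for the two rings. -/
theorem approx_jo {R S : ValuationSubring F} (hR : R < jo R S) (hS : S < jo R S) {a b : F}
    (ha : a ∈ jo R S) (ha' : a⁻¹ ∈ jo R S) (ha0 : a ≠ 0) (hb : b ∈ jo R S)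
    (hb' : b⁻¹ ∈ jo R S) (hb0 : b ≠ 0) {u : F} (hu : u ∈ jo R S) (hu' : u⁻¹ ∈ jo R S)
    (hu0 : u ≠ 0) (haR : R.valuation a ≤ 1) :
    ∃ x : F, x ≠ 0 ∧ R.valuation (x / u - 1) < R.valuation a ∧
      S.valuation (x - 1) < S.valuation b := by
  obtain ⟨Q, hQ⟩ : ∃ Q, Q = jo R S := ⟨_, rfl⟩
  -- the bounds
  obtain ⟨c, hc1, hc2, hc0, hcR, hcS⟩ : ∃ c : F, c ∈ jo R S ∧ c⁻¹ ∈ jo R S ∧ c ≠ 0 ∧
      R.valuation (1 - u) ≤ R.valuation c ∧ S.valuation (1 - u) ≤ S.valuation c := by
    rcases lt_or_ge ((jo R S).valuation (1 - u)) 1 with h1 | h1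
    · refine ⟨1, (jo R S).one_mem, by rw [inv_one]; exact (jo R S).one_mem, one_ne_zero, ?_, ?_⟩
      · rw [map_one]
        exact (lt_one_of_nonunit hR.le h1).le
      · rw [map_one]
        exact (lt_one_of_nonunit hS.le h1).le
    · have h0 : 1 - u ≠ 0 := by
        intro e
        rw [e, map_zero] at h1
        exact absurd h1 (not_le.2 zero_lt_one)
      refine ⟨1 - u, (jo R S).sub_mem (jo R S).one_mem hu, ?_, h0, le_rfl, le_rfl⟩
      rw [← ValuationSubring.valuation_le_one_iff, map_inv₀]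
      exact inv_le_one_of_one_le₀ h1
  have hcv : 0 < R.valuation c := zero_lt_iff.2 ((Valuation.ne_zero_iff _).2 hc0)
  have hcv' : 0 < S.valuation c := zero_lt_iff.2 ((Valuation.ne_zero_iff _).2 hc0)
  obtain ⟨e, he1, he2⟩ := approx01 hR hS (α := a * u * c⁻¹) (β := b * c⁻¹)
    ((jo R S).mul_mem _ _ ((jo R S).mul_mem _ _ ha hu) hc2)
    (by rw [mul_inv, mul_inv, inv_inv]
        exact (jo R S).mul_mem _ _ ((jo R S).mul_mem _ _ ha' hu') hc1)
    (mul_ne_zero (mul_ne_zero ha0 hu0) (inv_ne_zero hc0))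
    ((jo R S).mul_mem _ _ hb hc2)
    (by rw [mul_inv, inv_inv]
        exact (jo R S).mul_mem _ _ hb' hc1)
    (mul_ne_zero hb0 (inv_ne_zero hc0))
  have h1 : R.valuation (e * (1 - u)) < R.valuation (a * u) := by
    rw [map_mul]
    calc R.valuation e * R.valuation (1 - u) ≤ R.valuation e * R.valuation c :=
          mul_le_mul_right hcR _
      _ < R.valuation (a * u * c⁻¹) * R.valuation c := mul_lt_mul_of_pos_right he1 hcv
      _ = R.valuation (a * u) := by rw [← map_mul, inv_mul_cancel_right₀ hc0]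
  have h2 : S.valuation ((1 - e) * (u - 1)) < S.valuation b := by
    rw [map_mul]
    have hcS' : S.valuation (u - 1) ≤ S.valuation c := by
      rwa [← neg_sub, Valuation.map_neg]
    calc S.valuation (1 - e) * S.valuation (u - 1) ≤ S.valuation (1 - e) * S.valuation c :=
          mul_le_mul_right hcS' _
      _ < S.valuation (b * c⁻¹) * S.valuation c := mul_lt_mul_of_pos_right he2 hcv'
      _ = S.valuation b := by rw [← map_mul, inv_mul_cancel_right₀ hc0]
  have h3 : R.valuation ((u + e * (1 - u)) / u - 1) < R.valuation a := by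
    have e3 : (u + e * (1 - u)) / u - 1 = e * (1 - u) / u := by field_simp; ring
    rw [e3, map_div₀, div_lt_iff₀ (zero_lt_iff.2 ((Valuation.ne_zero_iff _).2 hu0)), ← map_mul]
    exact h1
  refine ⟨u + e * (1 - u), ?_, h3, ?_⟩
  · intro h0
    rw [h0, zero_div, zero_sub, Valuation.map_neg, map_one] at h3
    exact absurd haR (not_le.2 h3)
  · have e3 : u + e * (1 - u) - 1 = (1 - e) * (u - 1) := by ring
    rw [e3]
    exact h2

end

end Pool.Agent.Helper40.ET
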