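import Mathlib
import Pool.Agent.Helper39.FAM.Pl

set_option autoImplicit false

/-! Maximal compatible rings. -/

namespace Pool.Agent.Helper40.ET

open Pool.Agent.ETC

section

variable {F : Type} [Field F]

/-- the value group is not `p`-divisible -/
def NU (p : ℕ) (O : ValuationSubring F) : Prop :=
  ∃ c : Fˣ, ∀ f : Fˣ, O.valuation ((c * f ^ p : Fˣ) : F) ≠ 1

/-- a compatible ring of residue characteristic different from `p` whose value group is not
`p`-divisible -/
structure GoodR (p : ℕ) (T : Subgroup Fˣ) (O : ValuationSubring F) : Prop where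
  pv : O.valuation (p : F) = 1
  one : ∀ u : Fˣ, O.valuation ((u : F) - 1) < 1 → u ∈ T
  nu : NU p O

lemma vlt_iff (O : ValuationSubring F) {x : F} :
    O.valuation x < 1 ↔ x = 0 ∨ x⁻¹ ∉ O := by
  by_cases hx0 : x = 0
  · simp [hx0]
  · have h0 : 0 < O.valuation x := zero_lt_iff.2 ((Valuation.ne_zero_iff _).2 hx0)
    rw [← O.valuation_le_one_iff, map_inv₀, not_le, one_lt_inv₀ h0]
    simp [hx0]

lemma veq_iff (O : ValuationSubring F) {x : F} (hx0 : x ≠ 0) :
    O.valuation x = 1 ↔ x ∈ O ∧ x⁻¹ ∈ O := by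
  have h0 : 0 < O.valuation x := zero_lt_iff.2 ((Valuation.ne_zero_iff _).2 hx0)
  rw [← O.valuation_le_one_iff, ← O.valuation_le_one_iff, map_inv₀, inv_le_one₀ h0,
    le_antisymm_iff]

/-- the union of a chain of valuation rings -/
lemma exists_union {c : Set (ValuationSubring F)} (hc : IsChain (· ≤ ·) c) {Y : ValuationSubring F}
    (hY : Y ∈ c) : ∃ U : ValuationSubring F, ∀ x, x ∈ U ↔ ∃ O ∈ c, x ∈ O := by
  have hd : ∀ O ∈ c, ∀ O' ∈ c, ∃ O'' ∈ c, O ≤ O'' ∧ O' ≤ O'' := by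
    intro O hO O' hO'
    rcases hc.total hO hO' with h | h
    · exact ⟨O', hO', h, le_rfl⟩
    · exact ⟨O, hO, le_rfl, h⟩
  refine ⟨{ carrier := {x | ∃ O ∈ c, x ∈ O}
            mul_mem' := ?_
            one_mem' := ⟨Y, hY, Y.one_mem⟩
            zero_mem' := ⟨Y, hY, Y.zero_mem⟩
            neg_mem' := ?_
            add_mem' := ?_
            mem_or_inv_mem' := ?_ }, fun x => Iff.rfl⟩
  · rintro x y ⟨O, hO, hx⟩ ⟨O', hO', hy⟩
    obtain ⟨O'', hO'', h1, h2⟩ := hd O hO O' hO'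
    exact ⟨O'', hO'', O''.mul_mem _ _ (h1 hx) (h2 hy)⟩
  · rintro x y ⟨O, hO, hx⟩ ⟨O', hO', hy⟩
    obtain ⟨O'', hO'', h1, h2⟩ := hd O hO O' hO'
    exact ⟨O'', hO'', O''.add_mem _ _ (h1 hx) (h2 hy)⟩
  · rintro x ⟨O, hO, hx⟩
    exact ⟨O, hO, O.neg_mem _ hx⟩
  · intro x
    rcases Y.mem_or_inv_mem x with h | h
    · exact Or.inl ⟨Y, hY, h⟩
    · exact Or.inr ⟨Y, hY, h⟩

/-- a finite family in a chain has an upper bound in the chain -/
lemma exists_bound {c : Set (ValuationSubring F)} (hc : IsChain (· ≤ ·) c) {Y : ValuationSubring F}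
    (hY : Y ∈ c) {ι : Type*} [Finite ι] (f : ι → ValuationSubring F) (hf : ∀ i, f i ∈ c) :
    ∃ O ∈ c, ∀ i, f i ≤ O := by
  classical
  have _ := Fintype.ofFinite ι
  have key : ∀ s : Finset ι, ∃ O ∈ c, ∀ i ∈ s, f i ≤ O := by
    intro s
    induction s using Finset.induction_on with
    | empty => exact ⟨Y, hY, fun i hi => absurd hi (Finset.notMem_empty i)⟩
    | insert a s _ ih =>
      obtain ⟨O, hO, h⟩ := ih
      rcases hc.total hO (hf a) with h1 | h1
      · refine ⟨f a, hf a, fun i hi => ?_⟩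
        rcases Finset.mem_insert.1 hi with rfl | hi
        · exact le_rfl
        · exact (h i hi).trans h1
      · refine ⟨O, hO, fun i hi => ?_⟩
        rcases Finset.mem_insert.1 hi with rfl | hi
        · exact h1
        · exact h i hi
  obtain ⟨O, hO, h⟩ := key Finset.univ
  exact ⟨O, hO, fun i => h i (Finset.mem_univ i)⟩

theorem exists_maxR {p : ℕ}
    (hfin : (powMonoidHom p : Fˣ →* Fˣ).range.index ≠ 0) {T : Subgroup Fˣ}
    {O : ValuationSubring F} (h : GoodR p T O) :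
    ∃ O' : ValuationSubring F, O ≤ O' ∧ GoodR p T O' ∧
      ∀ O'' : ValuationSubring F, O' ≤ O'' → GoodR p T O'' → O'' = O' := by
  classical
  have _ : (powMonoidHom p : Fˣ →* Fˣ).range.FiniteIndex := ⟨hfin⟩
  have _ : Finite (Fˣ ⧸ (powMonoidHom p : Fˣ →* Fˣ).range) :=
    Subgroup.finite_quotient_of_finiteIndex
  obtain ⟨m, hm1, hm2⟩ := zorn_le_nonempty₀ {O : ValuationSubring F | GoodR p T O} (by
    intro c hcs hc Y hY
    obtain ⟨U, hU⟩ := exists_union hc hY
    have hle : ∀ O ∈ c, O ≤ U := fun O hO x hx => (hU x).2 ⟨O, hO, hx⟩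
    refine ⟨U, ?_, fun O hO => hle O hO⟩
    have hYg : GoodR p T Y := hcs hY
    have hp0 : (p : F) ≠ 0 := by
      intro e
      have := hYg.pv
      rw [e, map_zero] at this
      exact zero_ne_one this
    have hpU : U.valuation (p : F) = 1 := by
      rw [veq_iff _ hp0]
      have := hYg.pv
      rw [veq_iff _ hp0] at this
      exact ⟨hle Y hY this.1, hle Y hY this.2⟩
    refine ⟨hpU, fun u hu => ?_, ?_⟩
    · apply hYg.one
      rw [vlt_iff] at hu ⊢
      exact hu.imp id fun h1 h2 => h1 (hle Y hY h2)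
    · by_contra hnu
      unfold NU at hnu
      push Not at hnu
      -- bounded by one ring of the chain
      have h1 : ∀ q : Fˣ ⧸ (powMonoidHom p : Fˣ →* Fˣ).range, ∃ x : Fˣ, QuotientGroup.mk x = q ∧
          ∃ O ∈ c, O.valuation (x : F) = 1 := by
        intro q
        obtain ⟨a, rfl⟩ := QuotientGroup.mk_surjective q
        obtain ⟨f, hf⟩ := hnu a
        refine ⟨a * f ^ p, ?_, ?_⟩
        · rw [eq_comm, QuotientGroup.eq, inv_mul_cancel_left]
          exact ⟨f, rfl⟩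
        · rw [veq_iff _ (Units.ne_zero _), hU, hU] at hf
          obtain ⟨⟨O, hO, h1⟩, O', hO', h2⟩ := hf
          rcases hc.total hO hO' with h3 | h3
          · exact ⟨O', hO', (veq_iff _ (Units.ne_zero _)).2 ⟨h3 h1, h2⟩⟩
          · exact ⟨O, hO, (veq_iff _ (Units.ne_zero _)).2 ⟨h1, h3 h2⟩⟩
      choose x hx R hR hRx using h1
      obtain ⟨O, hO, hOR⟩ := exists_bound hc hY R hR
      obtain ⟨a, ha⟩ := (hcs hO : GoodR p T O).nu
      have h2 := hx (QuotientGroup.mk a)
      rw [eq_comm, QuotientGroup.eq] at h2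
      obtain ⟨f, hf⟩ := h2
      apply ha f
      have h3 : a * f ^ p = x (QuotientGroup.mk a) := by
        rw [powMonoidHom_apply] at hf
        rw [hf, mul_inv_cancel_left]
      rw [h3]
      have h4 := hRx (QuotientGroup.mk a)
      rw [veq_iff _ (Units.ne_zero _)] at h4 ⊢
      exact ⟨hOR _ h4.1, hOR _ h4.2⟩) O h
  refine ⟨m, hm1, hm2.prop, fun O'' h1 h2 => ?_⟩
  exact le_antisymm (hm2.le_of_ge h2 h1) h1

end

end Pool.Agent.Helper40.ET
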