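import Mathlib
import Pool.Agent.Helper39.FAM.Pl
import Pool.Agent.Helper40.ET.MaxR
import Pool.Agent.Helper40.ET.Join

set_option autoImplicit false

/-! Comparison of places with nested groups `T(R)`. -/

namespace Pool.Agent.Helper40.ET

open Pool.Agent.ETC

section

variable {F : Type} [Field F] {p : ℕ} {ζ : F}

/-- `S` is maximal among the compatible rings of its group `T(S)` -/
def Mx (p : ℕ) (ζ : F) (S : ValuationSubring F) : Prop :=
  ∀ O : ValuationSubring F, S ≤ O → GoodR p (TR p ζ S) O → O = S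

lemma sm_mem_TR {R : ValuationSubring F} {u : Fˣ} (h : Sm p ζ R ((u : F) - 1)) :
    u ∈ TR p ζ R :=
  Subgroup.mem_sup_right (Subgroup.subset_closure h)

/-- uniformizers are not `p`-th powers modulo units -/
lemma unif_not {R : ValuationSubring F} (hp : p.Prime) {π : Fˣ}
    (h1 : R.valuation (π : F) < 1)
    (h2 : ∀ x : F, R.valuation x < 1 → R.valuation x ≤ R.valuation (π : F)) (y : F) :
    R.valuation (y : F) ^ p ≠ R.valuation (π : F) := by
  intro hy
  have hπ0 : 0 < R.valuation (π : F) := zero_lt_iff.2 ((Valuation.ne_zero_iff _).2 π.ne_zero)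
  have h4 : R.valuation (y : F) < 1 := by
    by_contra hc
    rw [not_lt] at hc
    rw [← hy] at h1
    exact absurd h1 (not_lt.2 (one_le_pow₀ hc))
  have h5 := h2 _ h4
  have h6 : R.valuation (y : F) ^ p ≤ R.valuation (π : F) ^ 2 := by
    calc R.valuation (y : F) ^ p ≤ R.valuation (π : F) ^ p := pow_le_pow_left₀ zero_le h5 p
      _ ≤ R.valuation (π : F) ^ 2 := pow_le_pow_right_of_le_one' h1.le hp.two_le
  rw [hy, pow_two] at h6
  have h7 : R.valuation (π : F) * R.valuation (π : F) < R.valuation (π : F) :=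
    mul_lt_of_lt_one_left hπ0 h1
  exact absurd h6 (not_le.2 h7)

lemma V1_notMem {R : ValuationSubring F} (h : V1 p ζ R) : ∃ c : Fˣ, c ∉ TR p ζ R := by
  obtain ⟨x, hx⟩ := h.nc 1
  exact ⟨_, hx 0⟩

lemma V2_notMem {R : ValuationSubring F} (hp : p.Prime) (hζ : IsPrimitiveRoot ζ p)
    (h : V2 p R) : ∃ c : Fˣ, c ∉ TR p ζ R := by
  obtain ⟨π, h1, h2, -⟩ := h.unif
  refine ⟨π, fun h3 => ?_⟩
  obtain ⟨f, x, hx, e⟩ := (mem_TR hp.ne_zero hζ.pow_eq_one (hζ.ne_one hp.one_lt)).1 h3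
  have h4 := congrArg R.valuation e
  rw [map_mul, map_pow, val_one_add (hx.lt_one hp.ne_zero hζ.pow_eq_one), mul_one] at h4
  exact unif_not hp h1 h2 (f : F) h4.symm

lemma Pl_notMem {R : ValuationSubring F} (hp : p.Prime) (hζ : IsPrimitiveRoot ζ p)
    (h : Pl p ζ R) : ∃ c : Fˣ, c ∉ TR p ζ R :=
  h.elim V1_notMem (V2_notMem hp hζ)

/-- proper overrings of a `p`-adic place have a `p`-divisible value group -/
lemma V2_not_nu {S O : ValuationSubring F} (h : V2 p S) (hlt : S < O) : ¬ NU p O := by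
  rintro ⟨c, hc⟩
  obtain ⟨π, h1, h2, -, h3⟩ := h.unif
  obtain ⟨y, hyO, hyS⟩ := SetLike.exists_of_lt hlt
  have hy0 : y ≠ 0 := by
    rintro rfl
    exact hyS S.zero_mem
  have hπ0 : (π : F) ≠ 0 := π.ne_zero
  have h4 : S.valuation y⁻¹ < 1 := by
    rw [map_inv₀]
    apply inv_lt_one_of_one_lt₀
    rw [← not_le, S.valuation_le_one_iff]
    exact hyS
  have h5 := h2 _ h4
  have h6 : (π : F)⁻¹ ∈ O := by
    have h6 : y⁻¹ / π ∈ S := by
      rw [← S.valuation_le_one_iff, map_div₀]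
      exact div_le_one_of_le₀ h5 zero_le
    have h7 := O.mul_mem _ _ hyO (hlt.le h6)
    have h8 : y * (y⁻¹ / π) = (π : F)⁻¹ := by field_simp
    rwa [h8] at h7
  have h7 : O.valuation (π : F) = 1 := by
    rw [veq_iff _ hπ0]
    exact ⟨hlt.le ((S.valuation_le_one_iff _).1 h1.le), h6⟩
  obtain ⟨f, n, hf⟩ := h3 c
  apply hc f⁻¹
  obtain ⟨v, hv⟩ : ∃ v : Fˣ, v = c * f⁻¹ ^ p / π ^ n := ⟨_, rfl⟩
  have hf0 : S.valuation (f : F) ≠ 0 := (Valuation.ne_zero_iff _).2 f.ne_zero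
  have hp0 : S.valuation (π : F) ≠ 0 := (Valuation.ne_zero_iff _).2 hπ0
  have h8 : S.valuation (v : F) = 1 := by
    rw [hv, Units.val_div_eq_div_val, Units.val_mul, Units.val_pow_eq_pow_val,
      Units.val_pow_eq_pow_val, Units.val_inv_eq_inv_val, map_div₀, map_mul, map_pow, map_pow,
      map_inv₀, hf, inv_pow]
    rw [mul_right_comm, mul_inv_cancel₀ (pow_ne_zero _ hf0), one_mul,
      div_self (pow_ne_zero _ hp0)]
  have h9 : O.valuation (v : F) = 1 := val_of_le hlt.le h8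
  have e : c * f⁻¹ ^ p = v * π ^ n := by rw [hv, div_mul_cancel]
  rw [e, Units.val_mul, Units.val_pow_eq_pow_val, map_mul, map_pow, h7, h9, one_pow, mul_one]

lemma V2_mx {S : ValuationSubring F} (h : V2 p S) : Mx p ζ S := by
  intro O hO hg
  rcases hO.eq_or_lt with e | hlt
  · exact e.symm
  · exact absurd hg.nu (V2_not_nu h hlt)

/-- C3: proper overrings of a top place are compatible -/
lemma one_of_lt (hp : p.Prime) (hζ : IsPrimitiveRoot ζ p) {S J : ValuationSubring F}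
    (hS : Top ζ S) (hlt : S < J) : J.valuation (p : F) = 1 ∧
      ∀ u : Fˣ, J.valuation ((u : F) - 1) < 1 → u ∈ TR p ζ S := by
  have hl0 : (1 : F) - ζ ≠ 0 := sub_ne_zero.2 (hζ.ne_one hp.one_lt).symm
  have h1 : J.valuation (1 - ζ) = 1 := by
    rw [veq_iff _ hl0]
    exact ⟨J.sub_mem J.one_mem (root_mem hp.ne_zero hζ.pow_eq_one J), hS J hlt⟩
  constructor
  · obtain ⟨z, rfl⟩ : ∃ z : Fˣ, (z : F) = ζ :=
      ⟨Units.mk0 _ (hζ.ne_zero hp.ne_zero), Units.val_mk0 _⟩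
    have hz : IsPrimitiveRoot z p := by rwa [IsPrimitiveRoot.coe_units_iff] at hζ
    rw [Pool.Agent.Helper58.ET.val_p hp hz J, h1, one_pow]
  · intro u hu
    apply sm_mem_TR
    have h2 : S.valuation (((u : F) - 1) / (1 - ζ) ^ p) < 1 := by
      apply lt_one_of_nonunit hlt.le
      rw [map_div₀, map_pow, h1, one_pow, div_one]
      exact hu
    unfold Sm
    rwa [map_div₀, map_pow, div_lt_one₀ (pow_pos (zero_lt_iff.2
      ((Valuation.ne_zero_iff _).2 hl0)) _)] at h2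

/-- C1: units of the join -/
lemma unit_of_jo (hp : p.Prime) (hζ : IsPrimitiveRoot ζ p) {R S : ValuationSubring F}
    (hR : Top ζ R) (h1 : R < jo R S) (h2 : S < jo R S) (h : TR p ζ S ≤ TR p ζ R) {u : Fˣ}
    (hu : (jo R S).valuation (u : F) = 1) : u ∈ TR p ζ R := by
  have hl0 : (1 : F) - ζ ≠ 0 := sub_ne_zero.2 (hζ.ne_one hp.one_lt).symm
  have h3 : (1 - ζ) ^ p ∈ jo R S :=
    pow_mem ((jo R S).sub_mem (jo R S).one_mem (root_mem hp.ne_zero hζ.pow_eq_one _)) p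
  have h4 : ((1 - ζ) ^ p)⁻¹ ∈ jo R S := by
    rw [← inv_pow]
    exact pow_mem (hR _ h1) p
  have h5 : (1 - ζ) ^ p ≠ 0 := pow_ne_zero _ hl0
  rw [veq_iff _ u.ne_zero] at hu
  obtain ⟨x, hx0, hx1, hx2⟩ := approx_jo h1 h2 h3 h4 h5 h3 h4 h5 hu.1 hu.2 u.ne_zero (by
    rw [map_pow]
    exact pow_le_one' (lam_le hp.ne_zero hζ.pow_eq_one R) p)
  obtain ⟨y, rfl⟩ : ∃ y : Fˣ, (y : F) = x := ⟨Units.mk0 x hx0, Units.val_mk0 _⟩
  have h6 : y ∈ TR p ζ S := sm_mem_TR (by unfold Sm; rwa [map_pow] at hx2)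
  have h7 : y / u ∈ TR p ζ R := sm_mem_TR (by
    unfold Sm
    rwa [map_pow, ← Units.val_div_eq_div_val] at hx1)
  have h8 := div_mem (h h6) h7
  rwa [div_div_cancel] at h8

/-- C2 -/
lemma nu_of_units {R J : ValuationSubring F} (hT : ∃ c : Fˣ, c ∉ TR p ζ R)
    (h : ∀ u : Fˣ, J.valuation (u : F) = 1 → u ∈ TR p ζ R) : NU p J := by
  obtain ⟨c, hc⟩ := hT
  refine ⟨c, fun f hf => hc ?_⟩
  have h1 := div_mem (h _ hf) (pow_mem_TR p ζ R f)
  rwa [mul_div_cancel_right] at h1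

/-- Theorem C: a place whose group contains the group of a maximal place is contained in it -/
theorem le_of_TR_le (hp : p.Prime) (hζ : IsPrimitiveRoot ζ p) {R S : ValuationSubring F}
    (hR : Pl p ζ R) (hS : Top ζ S) (hM : Mx p ζ S) (h : TR p ζ S ≤ TR p ζ R) : R ≤ S := by
  by_contra hc
  rcases (right_le_jo R S).eq_or_lt with h1 | h1
  · exact hc (h1 ▸ le_jn R S)
  rcases (le_jn R S).eq_or_lt with h2 | h2
  · -- `S < R`
    have h3 : S < R := by
      rw [h2]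
      exact h1
    obtain ⟨h4, h5⟩ := one_of_lt hp hζ hS h3
    have h6 : NU p R := by
      rcases hR with hR | hR
      · exact hR.nu
      · exact absurd hR.pv (by rw [h4]; exact lt_irrefl _)
    exact hc (hM R h3.le ⟨h4, h5, h6⟩).le
  · obtain ⟨h4, h5⟩ := one_of_lt hp hζ hS h1
    have h6 : NU p (jo R S) :=
      nu_of_units (Pl_notMem hp hζ hR) fun u hu => unit_of_jo hp hζ (hR.top hp hζ) h2 h1 h hu
    have h7 := hM _ h1.le ⟨h4, h5, h6⟩
    exact h1.ne h7.symm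

/-- the place attached to a maximal compatible ring -/
theorem exists_mx (hp : p.Prime) (hζ : IsPrimitiveRoot ζ p)
    (hfin : (powMonoidHom p : Fˣ →* Fˣ).range.index ≠ 0) {R : ValuationSubring F}
    (h : V1 p ζ R) :
    ∃ S : ValuationSubring F, R ≤ S ∧ V1 p ζ S ∧ TR p ζ S ≤ TR p ζ R ∧
      (TR p ζ S = TR p ζ R → Mx p ζ S) := by
  obtain ⟨S, hRS, hg, hmax⟩ := exists_maxR hfin (T := TR p ζ R) (O := R)
    ⟨h.pv, fun u hu => sm_mem_TR ((sm_of_pv hp hζ h.pv).2 hu), h.nu⟩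
  have hle : TR p ζ S ≤ TR p ζ R := by
    intro t ht
    obtain ⟨f, x, hx, e⟩ := (mem_TR hp.ne_zero hζ.pow_eq_one (hζ.ne_one hp.one_lt)).1 ht
    rw [sm_of_pv hp hζ hg.pv] at hx
    have h1 : t / f ^ p ∈ TR p ζ R := by
      apply hg.one
      rw [Units.val_div_eq_div_val, Units.val_pow_eq_pow_val, e, mul_div_cancel_left₀ _
        (pow_ne_zero _ f.ne_zero), add_sub_cancel_left]
      exact hx
    have h2 := mul_mem h1 (pow_mem_TR p ζ R f)
    rwa [div_mul_cancel] at h2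
  refine ⟨S, hRS, ⟨hg.pv, hg.nu, fun g => ?_⟩, hle, fun e O hO hgO => ?_⟩
  · obtain ⟨x, hx⟩ := h.nc g
    exact ⟨x, fun n hn => hx n (hle hn)⟩
  · rw [e] at hgO
    exact hmax O hO hgO

end

end Pool.Agent.Helper40.ET
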