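import Mathlib
import Pool.Agent.ETC.All
import Pool.Graph.R_seed8.Y620.ET.Extv
import Pool.Agent.Helper66.ETC.Conj2
import Pool.Agent.Helper40.ET.Comp1

set_option autoImplicit false

/-! COMPV: the places above a piece of valuation type. -/

namespace Pool.Agent.Helper40.ET

open Pool.Agent.ETC

/-- decomposition groups of comparable places -/
theorem dec_le {F K : Type} [Field F] [Field K] [Algebra F K] [IsGalois F K]
    {V W : ValuationSubring K} (h : V.comap (algebraMap F K) ≤ W.comap (algebraMap F K)) :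
    ∃ g : K ≃ₐ[F] K, ∀ σ ∈ Dec F V, g⁻¹ * σ * g ∈ Dec F W := by
  obtain ⟨S, hS⟩ : ∃ S, S = W.comap (algebraMap F K) := ⟨_, rfl⟩
  have h1 : (jn V S).comap (algebraMap F K) = W.comap (algebraMap F K) := by
    rw [comap_jn_of_le (hS ▸ h), hS]
  obtain ⟨g, hg⟩ := conj W (jn V S) h1.symm
  have h2 : ∀ σ ∈ Dec F V, ∀ x ∈ jn V S, σ x ∈ jn V S := by
    rintro σ hσ _ ⟨w, hw, s, hs, rfl⟩
    refine ⟨σ w, (hσ w).2 hw, s, hs, ?_⟩
    rw [map_mul, AlgEquiv.commutes]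
  refine ⟨g, fun σ hσ x => ?_⟩
  have h3 : ∀ τ ∈ Dec F V, ∀ x ∈ W, (g⁻¹ * τ * g) x ∈ W := by
    intro τ hτ x hx
    rw [← hg]
    have e : g ((g⁻¹ * τ * g) x) = τ (g x) := by
      rw [AlgEquiv.mul_apply, AlgEquiv.mul_apply]
      exact g.apply_symm_apply _
    rw [e]
    exact h2 τ hτ _ ((hg x).2 hx)
  constructor
  · intro hx
    have h4 := h3 σ⁻¹ (inv_mem hσ) _ hx
    have e : (g⁻¹ * σ⁻¹ * g) ((g⁻¹ * σ * g) x) = x := by
      rw [← AlgEquiv.mul_apply]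
      have : g⁻¹ * σ⁻¹ * g * (g⁻¹ * σ * g) = 1 := by group
      rw [this, AlgEquiv.one_apply]
    rwa [e] at h4
  · exact h3 σ hσ x

lemma NX_congr {F : Type} [Field F] {p : ℕ} {ζ : F} {R S : ValuationSubring F}
    (h : NX p ζ R) (e : TR p ζ S = TR p ζ R) : NX p ζ S := by
  intro P hP hle g
  rw [e] at hle ⊢
  exact h P hP hle g

theorem t_COMPV : S_COMPV := by
  intro p hp F K _ _ _ ζ hζ hK hfin T hT hu
  have hp' : p.Prime := hp.out
  have _ := hK.gal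
  obtain ⟨R, ⟨hR, hN⟩, rfl⟩ := hT
  obtain ⟨S, hS, hTS, hM⟩ : ∃ S : ValuationSubring F, Pl p ζ S ∧ TR p ζ S = TR p ζ R ∧
      Mx p ζ S := by
    rcases hR with hR | hR
    · obtain ⟨S, -, hS, hle, hM⟩ := exists_mx hp' hζ hfin hR
      have e := hu S (Or.inl hS) hle
      exact ⟨S, Or.inl hS, e, hM e⟩
    · exact ⟨R, Or.inr hR, rfl, V2_mx hR⟩
  obtain ⟨W, hW⟩ := Pool.Agent.Y620.ET.t_EXTV F K S
  refine ⟨W, ?_, ?_, fun V hV hle => ?_⟩
  · rw [hW]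
    exact ⟨hS, NX_congr hN hTS⟩
  · rw [hW, hTS]
  · apply dec_le
    rw [hW]
    exact le_of_TR_le hp' hζ hV.1 (hS.top hp' hζ) hM (hTS ▸ hle)

end Pool.Agent.Helper40.ET
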