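import Mathlib

set_option autoImplicit false

/-! Finite extensions of valuation rings: the value groups modulo `p`. -/

namespace Pool.Agent.Helper40.ET

section

variable {F M : Type} [Field F] [Field M] [Algebra F M]

/-- the value of a unit in the group of units of the value monoid -/
noncomputable def uval (R : ValuationSubring F) : Fˣ →* R.ValueGroupˣ :=
  Units.map (R.valuation : F →* R.ValueGroup)

@[simp] lemma uval_val (R : ValuationSubring F) (x : Fˣ) :
    ((uval R x : R.ValueGroupˣ) : R.ValueGroup) = R.valuation (x : F) := rfl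

lemma uval_surj (R : ValuationSubring F) : Function.Surjective (uval R) := by
  intro g
  obtain ⟨x, hx⟩ := R.valuation_surjective (g : R.ValueGroup)
  have hx0 : x ≠ 0 := by
    rintro rfl
    rw [map_zero] at hx
    exact g.ne_zero hx.symm
  exact ⟨Units.mk0 x hx0, Units.ext hx⟩

/-- the elements whose value is the value of a `p`-th power -/
noncomputable def VP (p : ℕ) (R : ValuationSubring F) : Subgroup Fˣ :=
  ((powMonoidHom p : R.ValueGroupˣ →* R.ValueGroupˣ).range).comap (uval R)

lemma mem_VP {p : ℕ} {R : ValuationSubring F} {x : Fˣ} :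
    x ∈ VP p R ↔ ∃ y : Fˣ, R.valuation (x : F) = R.valuation (y : F) ^ p := by
  unfold VP
  rw [Subgroup.mem_comap, MonoidHom.mem_range]
  constructor
  · rintro ⟨g, hg⟩
    obtain ⟨y, rfl⟩ := uval_surj R g
    refine ⟨y, ?_⟩
    have := congrArg Units.val hg
    rw [powMonoidHom_apply, Units.val_pow_eq_pow_val] at this
    exact this.symm
  · rintro ⟨y, hy⟩
    refine ⟨uval R y, ?_⟩
    ext
    rw [powMonoidHom_apply, Units.val_pow_eq_pow_val]
    exact hy.symm

/-- elements of the big field with different values modulo the small field are linearly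
independent -/
lemma fin_index [FiniteDimensional F M] (P : ValuationSubring M) :
    (((uval P).comp (Units.map (algebraMap F M : F →* M))).range).index ≠ 0 := by
  classical
  obtain ⟨H, hH⟩ : ∃ H, H = ((uval P).comp (Units.map (algebraMap F M : F →* M))).range :=
    ⟨_, rfl⟩
  rw [← hH]
  suffices Finite (P.ValueGroupˣ ⧸ H) from Subgroup.index_ne_zero_of_finite
  by_contra hinf
  rw [not_finite_iff_infinite] at hinf
  obtain ⟨s, hs⟩ := Infinite.exists_subset_card_eq (P.ValueGroupˣ ⧸ H) (Module.finrank F M + 1)
  -- representatives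
  have h1 : ∀ q : P.ValueGroupˣ ⧸ H, ∃ x : Mˣ, (QuotientGroup.mk (uval P x) : _ ⧸ H) = q := by
    intro q
    obtain ⟨g, rfl⟩ := QuotientGroup.mk_surjective q
    obtain ⟨x, rfl⟩ := uval_surj P g
    exact ⟨x, rfl⟩
  choose r hr using h1
  have hli : LinearIndependent F (fun q : s => ((r q : Mˣ) : M)) := by
    rw [Fintype.linearIndependent_iff]
    intro c hc
    by_contra hne
    push Not at hne
    obtain ⟨i₀, hi₀⟩ := hne
    obtain ⟨k, hk, hmax⟩ := Finset.exists_max_image
      (Finset.univ.filter fun q : s => c q ≠ 0)
      (fun q => P.valuation (c q • ((r q : Mˣ) : M))) ⟨i₀, by simp [hi₀]⟩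
    rw [Finset.mem_filter] at hk
    have hkv : P.valuation (c k • ((r k : Mˣ) : M)) ≠ 0 := by
      rw [Valuation.ne_zero_iff]
      exact smul_ne_zero hk.2 (r k).ne_zero
    have hlt : P.valuation (∑ q ∈ Finset.univ.erase k, c q • ((r q : Mˣ) : M)) <
        P.valuation (c k • ((r k : Mˣ) : M)) := by
      refine Valuation.map_sum_lt _ hkv fun q hq => ?_
      rw [Finset.mem_erase] at hq
      by_cases hcq : c q = 0
      · rw [hcq, zero_smul, map_zero]
        exact zero_lt_iff.2 hkv
      · refine lt_of_le_of_ne (hmax q (by simp [hcq])) fun e => hq.1 ?_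
        -- the classes agree
        have e1 : uval P (r q) / uval P (r k) ∈ H := by
          have hmem : ∀ g : P.ValueGroupˣ, g ∈ ((uval P).comp
              (Units.map (algebraMap F M : F →* M))).range → g ∈ H := fun g hg => hH ▸ hg
          apply hmem
          rw [MonoidHom.mem_range]
          refine ⟨Units.mk0 (c k) hk.2 / Units.mk0 (c q) hcq, ?_⟩
          rw [MonoidHom.comp_apply, map_div, map_div, div_eq_div_iff_mul_eq_mul]
          ext
          rw [Units.val_mul, Units.val_mul, uval_val, uval_val, uval_val, uval_val, Units.coe_map,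
            Units.coe_map, Units.val_mk0, Units.val_mk0, ← map_mul, ← map_mul]
          rw [Algebra.smul_def, Algebra.smul_def] at e
          rw [MonoidHom.coe_coe, mul_comm _ (algebraMap F M (c q))]
          exact e.symm
        have e2 : (q : P.ValueGroupˣ ⧸ H) = k := by
          rw [← hr q, ← hr k, eq_comm, QuotientGroup.eq]
          rwa [div_eq_mul_inv, mul_comm] at e1
        exact Subtype.ext e2
    rw [← Finset.add_sum_erase _ _ (Finset.mem_univ k)] at hc
    have h2 := Valuation.map_add_eq_of_lt_left P.valuation hlt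
    rw [hc, map_zero] at h2
    exact hkv h2.symm
  have h2 := hli.fintype_card_le_finrank
  rw [Fintype.card_coe, hs] at h2
  omega

/-- The value groups of a finite extension modulo `p` have the same order. -/
theorem idx_eq [FiniteDimensional F M] {O : ValuationSubring F} {P : ValuationSubring M}
    (hP : P.comap (algebraMap F M) = O) {p : ℕ} (hp : p ≠ 0) :
    (VP p O).index = (VP p P).index := by
  obtain ⟨w, hw⟩ : ∃ w, w = (uval P).comp (Units.map (algebraMap F M : F →* M)) := ⟨_, rfl⟩
  obtain ⟨f, hf⟩ : ∃ f, f = (powMonoidHom p : P.ValueGroupˣ →* P.ValueGroupˣ) := ⟨_, rfl⟩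
  have hinj : Function.Injective f := by
    intro a b hab
    rw [hf, powMonoidHom_apply, powMonoidHom_apply] at hab
    have h1 := congrArg Units.val hab
    rw [Units.val_pow_eq_pow_val, Units.val_pow_eq_pow_val] at h1
    ext
    exact (pow_left_inj₀ zero_le zero_le hp).1 h1
  have h0 := fin_index (F := F) P
  rw [← hw] at h0
  -- the value comparison
  have hle : ∀ x y : F, O.valuation x ≤ O.valuation y ↔
      P.valuation (algebraMap F M x) ≤ P.valuation (algebraMap F M y) := by
    intro x y
    by_cases hy : y = 0
    · rw [hy, map_zero, map_zero, map_zero, le_zero_iff, le_zero_iff, map_eq_zero, map_eq_zero,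
        map_eq_zero]
    · have hy0 : 0 < O.valuation y := zero_lt_iff.2 ((Valuation.ne_zero_iff _).2 hy)
      have hy1 : 0 < P.valuation (algebraMap F M y) :=
        zero_lt_iff.2 ((Valuation.ne_zero_iff _).2 (by rwa [Ne, map_eq_zero]))
      rw [← div_le_one₀ hy0, ← div_le_one₀ hy1, ← map_div₀, ← map_div₀, ← map_div₀,
        O.valuation_le_one_iff, P.valuation_le_one_iff, ← hP, ValuationSubring.mem_comap]
  have heq : ∀ x y : F, O.valuation x = O.valuation y ↔
      P.valuation (algebraMap F M x) = P.valuation (algebraMap F M y) := by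
    intro x y
    rw [le_antisymm_iff, le_antisymm_iff, hle, hle]
  have h2 : VP p O = ((w.range).map f).comap w := by
    ext x
    rw [mem_VP, Subgroup.mem_comap]
    constructor
    · rintro ⟨y, hy⟩
      refine ⟨w y, ⟨y, rfl⟩, ?_⟩
      rw [← map_pow, heq, map_pow, map_pow] at hy
      rw [hf, hw, powMonoidHom_apply]
      ext
      rw [Units.val_pow_eq_pow_val]
      exact hy.symm
    · rintro ⟨g, ⟨y, rfl⟩, hg⟩
      refine ⟨y, ?_⟩
      rw [← map_pow, heq, map_pow, map_pow]
      rw [hf, hw, powMonoidHom_apply] at hg
      have := congrArg Units.val hg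
      rw [Units.val_pow_eq_pow_val] at this
      exact this.symm
  have h3 : VP p P = f.range.comap (uval P) := by
    rw [hf]
    rfl
  rw [h2, h3, Subgroup.index_comap, Subgroup.index_comap_of_surjective _ (uval_surj P)]
  have h4 : (w.range.map f) ≤ w.range := by
    rintro _ ⟨g, hg, rfl⟩
    rw [hf, powMonoidHom_apply]
    exact pow_mem hg p
  have h5 : (w.range.map f) ≤ f.range := by
    rintro _ ⟨g, -, rfl⟩
    exact ⟨g, rfl⟩
  have h6 := Subgroup.relIndex_mul_index h4
  have h7 := Subgroup.relIndex_mul_index h5
  have h8 : (w.range.map f).relIndex f.range = w.range.index := by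
    rw [MonoidHom.range_eq_map f, Subgroup.relIndex_map_map_of_injective _ _ hinj,
      Subgroup.relIndex_top_right]
  rw [h8] at h7
  rw [← h7, mul_comm] at h6
  exact Nat.eq_of_mul_eq_mul_left (Nat.pos_of_ne_zero h0) h6

end

end Pool.Agent.Helper40.ET
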