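import Mathlib
import Pool.Agent.Helper58.ET.Conj

set_option autoImplicit false

/-! The residue field in a Galois extension of degree `p`. -/

namespace Pool.Agent.Helper40.ET

open Pool.Agent.Helper58.ET

section

variable {F M : Type} [Field F] [Field M]

/-- different `p`-th roots of unity are not congruent if `p` is a unit -/
lemma root_sub {p : ℕ} {R : ValuationSubring F} (hv : R.valuation (p : F) = 1)
    {w : F} (hw : w ^ p = 1) (hw1 : w ≠ 1) : R.valuation (w - 1) = 1 := by
  by_contra hne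
  have hp0 : p ≠ 0 := by
    rintro rfl
    rw [Nat.cast_zero, map_zero] at hv
    exact zero_ne_one hv
  have hwv : R.valuation w = 1 := by
    have h1 : R.valuation w ^ p = 1 := by rw [← map_pow, hw, map_one]
    exact (pow_eq_one_iff_of_nonneg zero_le hp0).1 h1
  have hle : R.valuation (w - 1) ≤ 1 :=
    Valuation.map_sub_le _ hwv.le (map_one _).le
  have hlt : R.valuation (w - 1) < 1 := lt_of_le_of_ne hle hne
  have h1 : ∑ i ∈ Finset.range p, w ^ i = 0 := by
    have h2 := mul_geom_sum w p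
    rw [hw, sub_self] at h2
    exact (mul_eq_zero.1 h2).resolve_left (sub_ne_zero.2 hw1)
  have h2 : R.valuation (∑ i ∈ Finset.range p, (w ^ i - 1)) < 1 := by
    refine Valuation.map_sum_lt _ one_ne_zero fun i _ => ?_
    have h3 := geom_sum_mul w i
    rw [← h3, map_mul]
    refine mul_lt_one_of_nonneg_of_lt_one_right ?_ zero_le hlt
    rw [R.valuation_le_one_iff]
    refine sum_mem fun j _ => R.toSubring.pow_mem ?_ j
    exact (R.valuation_le_one_iff _).1 hwv.le
  rw [Finset.sum_sub_distrib, h1, zero_sub, Valuation.map_neg, Finset.sum_const, Finset.card_range,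
    nsmul_eq_mul, mul_one, hv] at h2
  exact lt_irrefl _ h2

variable [Algebra F M]

/-- If all units are `p`-th powers times one-units then the residue field does not grow. -/
theorem res_eq [FiniteDimensional F M] [IsGalois F M] {p : ℕ} (hp : p.Prime)
    (hM : Module.finrank F M = p) {ζ : F} (hζ : IsPrimitiveRoot ζ p)
    {O : ValuationSubring F} {P : ValuationSubring M} (hP : P.comap (algebraMap F M) = O)
    (hv : O.valuation (p : F) = 1)
    (hk : ∀ u : F, O.valuation u = 1 → ∃ y : F, O.valuation (u - y ^ p) < 1)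
    {x : M} (hx : x ∈ P) : ∃ f : F, P.valuation (x - algebraMap F M f) < 1 := by
  classical
  have _ : Fact p.Prime := ⟨hp⟩
  have hcard : Nat.card (M ≃ₐ[F] M) = p := by rw [IsGalois.card_aut_eq_finrank, hM]
  by_cases hcj : ∀ σ : M ≃ₐ[F] M, σ ≠ 1 → cj P σ ≠ P
  · -- the ring is not invariant
    obtain ⟨u, hu, huσ⟩ := approx0 hP hcj
    by_cases hx0 : x = 0
    · exact ⟨0, by rw [hx0, map_zero, sub_zero, map_zero]; exact zero_lt_one⟩
    obtain ⟨y, z, hyz, h1, h2⟩ := denom (F := F) O hx0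
    have hyv := h2 P hP hx
    have hzB : z ∈ Bb M O := fun W hW => (h1 W hW).2
    have hxz : P.valuation (x - z) < 1 := by
      have e : x - z = -(x * (y - 1)) := by rw [← hyz]; ring
      rw [e, Valuation.map_neg, map_mul]
      exact mul_lt_one_of_nonneg_of_lt_one_right ((P.valuation_le_one_iff _).2 hx) zero_le hyv
    refine ⟨Algebra.trace F M (u * z), ?_⟩
    have h3 : x - algebraMap F M (Algebra.trace F M (u * z)) =
        (x - z) - ((u - 1) * z + ∑ σ ∈ Finset.univ.erase (1 : M ≃ₐ[F] M), σ (u * z)) := by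
      rw [trace_eq_sum_automorphisms, ← Finset.add_sum_erase Finset.univ _
        (Finset.mem_univ (1 : M ≃ₐ[F] M)), AlgEquiv.one_apply]
      ring
    rw [h3]
    refine Valuation.map_sub_lt _ hxz (Valuation.map_add_lt _ ?_
      (Valuation.map_sum_lt _ one_ne_zero fun σ hσ => ?_))
    · rw [map_mul]
      exact mul_lt_one_of_nonneg_of_lt_one_left zero_le hu
        ((P.valuation_le_one_iff _).2 (Bb_le hP hzB))
    · rw [map_mul, map_mul]
      exact mul_lt_one_of_nonneg_of_lt_one_left zero_le (huσ σ (Finset.ne_of_mem_erase hσ))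
        ((P.valuation_le_one_iff _).2 (Bb_le hP (Bb_map hzB σ)))
  -- the ring is invariant
  push Not at hcj
  obtain ⟨τ, hτ1, hτ⟩ := hcj
  have hinv : ∀ (σ : M ≃ₐ[F] M) (w : M), P.valuation w ≤ 1 → P.valuation (σ w) ≤ 1 := by
    intro σ w hw
    have h1 : τ ∈ Subgroup.zpowers τ := Subgroup.mem_zpowers τ
    have h2 : σ ∈ Subgroup.zpowers τ := by
      have := mem_zpowers_of_prime_card (G := M ≃ₐ[F] M) hcard hτ1 (g' := σ)
      exact this
    have h3 : σ ∈ Submonoid.powers τ := by
      rwa [mem_powers_iff_mem_zpowers]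
    obtain ⟨n, rfl⟩ := h3
    have h4 : ∀ n : ℕ, ∀ w : M, w ∈ P → (τ ^ n) w ∈ P := by
      intro n
      induction n with
      | zero => intro w hw; rw [pow_zero]; exact hw
      | succ n ih =>
        intro w hw
        rw [pow_succ, AlgEquiv.mul_apply]
        apply ih
        rw [← hτ] at hw
        exact hw
    rw [P.valuation_le_one_iff] at hw ⊢
    exact h4 n w hw
  have hinv' : ∀ (σ : M ≃ₐ[F] M) (w : M), P.valuation w < 1 → P.valuation (σ w) < 1 := by
    intro σ w hw
    by_cases hw0 : w = 0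
    · rw [hw0, map_zero, map_zero]
      exact zero_lt_one
    by_contra hc
    rw [not_lt] at hc
    have h1 : P.valuation ((σ w)⁻¹) ≤ 1 := by
      rw [map_inv₀]
      exact inv_le_one_of_one_le₀ hc
    have h2 := hinv σ⁻¹ _ h1
    rw [map_inv₀, map_inv₀, ← AlgEquiv.mul_apply, inv_mul_cancel, AlgEquiv.one_apply] at h2
    exact absurd h2 (not_le.2 ((one_lt_inv₀ (zero_lt_iff.2 ((Valuation.ne_zero_iff _).2 hw0))).2 hw))
  have _ : IsCyclic (M ≃ₐ[F] M) := isCyclic_of_prime_card hcard
  have hζ0 : ζ ≠ 0 := hζ.ne_zero hp.ne_zero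
  obtain ⟨α, ⟨a, ha⟩, hα⟩ := exists_root_adjoin_eq_top_of_isCyclic (K := F) (L := M)
    ⟨ζ, by rw [hM, mem_primitiveRoots hp.pos]; exact hζ⟩
  rw [hM] at ha
  have hαF : α ∉ Set.range (algebraMap F M) := by
    rintro ⟨b, rfl⟩
    have h1 : (⊥ : IntermediateField F M) = ⊤ := by
      rw [← hα, eq_comm, IntermediateField.adjoin_simple_eq_bot_iff]
      exact algebraMap_mem _ b
    have h2 := IntermediateField.bot_eq_top_iff_finrank_eq_one.1 h1
    rw [hM] at h2
    exact hp.one_lt.ne' h2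
  have hα0 : α ≠ 0 := by
    rintro rfl
    exact hαF ⟨0, map_zero _⟩
  have hpM : P.valuation (p : M) = 1 := by
    have h1 : algebraMap F M (p : F) = (p : M) := map_natCast _ p
    have h2 : (p : F) ∈ O := (O.valuation_le_one_iff _).1 hv.le
    have h3 : (p : F)⁻¹ ∈ O := by
      rw [← O.valuation_le_one_iff, map_inv₀, hv, inv_one]
    rw [← over_le hP] at h2 h3
    rw [← P.valuation_le_one_iff, h1] at h2
    rw [← P.valuation_le_one_iff, map_inv₀, h1, map_inv₀] at h3
    refine le_antisymm h2 ?_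
    by_contra hc
    rw [not_le] at hc
    have hp0 : (p : M) ≠ 0 := by
      intro e
      rw [← h1, map_eq_zero] at e
      rw [e, map_zero] at hv
      exact zero_ne_one hv
    exact absurd h3 (not_le.2 ((one_lt_inv₀ (zero_lt_iff.2 ((Valuation.ne_zero_iff _).2 hp0))).2 hc))
  -- the action on `α`
  obtain ⟨w, hw⟩ : ∃ w : (M ≃ₐ[F] M) → M, ∀ σ, w σ = σ α / α := ⟨_, fun _ => rfl⟩
  have hw1 : ∀ σ, σ α = w σ * α := fun σ => by rw [hw, div_mul_cancel₀ _ hα0]
  have hwp : ∀ σ, w σ ^ p = 1 := by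
    intro σ
    rw [hw, div_pow, ← map_pow, ← ha, AlgEquiv.commutes, div_self]
    rw [ha]
    exact pow_ne_zero _ hα0
  have hwv : ∀ σ, P.valuation (w σ) = 1 := by
    intro σ
    have h1 : P.valuation (w σ) ^ p = 1 := by rw [← map_pow, hwp, map_one]
    exact (pow_eq_one_iff_of_nonneg zero_le hp.ne_zero).1 h1
  have hw0 : ∀ σ, w σ ≠ 0 := by
    intro σ e
    have := hwp σ
    rw [e, zero_pow hp.ne_zero] at this
    exact zero_ne_one this
  have hwne : ∀ σ : M ≃ₐ[F] M, σ ≠ 1 → w σ ≠ 1 := by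
    intro σ hσ e
    apply hσ
    have h1 : σ α = α := by rw [hw1, e, one_mul]
    have h2 : ∀ y ∈ IntermediateField.adjoin F {α}, σ y = y := by
      intro y hy
      have h3 : IntermediateField.adjoin F {α} ≤
          IntermediateField.fixedField (Subgroup.zpowers σ) := by
        rw [IntermediateField.adjoin_simple_le_iff]
        intro g
        obtain ⟨g, hg⟩ := g
        obtain ⟨n, rfl⟩ := Subgroup.mem_zpowers_iff.1 hg
        have h4 : ∀ n : ℤ, (σ ^ n) α = α := by
          intro n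
          have h5 : σ ∈ MulAction.stabilizer (M ≃ₐ[F] M) α := h1
          exact zpow_mem h5 n
        exact h4 n
      exact (h3 hy) ⟨σ, Subgroup.mem_zpowers σ⟩
    ext y
    rw [AlgEquiv.one_apply]
    exact h2 y (by rw [hα]; exact IntermediateField.mem_top)
  -- roots of unity in `F`
  have hwF : ∀ σ, ∃ f : F, algebraMap F M f = w σ := by
    intro σ
    obtain ⟨i, -, hi⟩ := (hζ.map_of_injective (algebraMap F M).injective).eq_pow_of_pow_eq_one
      (hwp σ)
    exact ⟨ζ ^ i, by rw [map_pow, hi]⟩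
  obtain ⟨y, hy⟩ : ∃ y : ℕ → M, ∀ j, y j = α ^ j *
      algebraMap F M (Algebra.trace F M (x * α⁻¹ ^ j)) := ⟨_, fun _ => rfl⟩
  have hy' : ∀ j, y j = ∑ σ : M ≃ₐ[F] M, (w σ)⁻¹ ^ j * σ x := by
    intro j
    rw [hy, trace_eq_sum_automorphisms, Finset.mul_sum]
    refine Finset.sum_congr rfl fun σ _ => ?_
    have h1 : w σ ≠ 0 := hw0 σ
    rw [map_mul, map_pow, map_inv₀, hw1, mul_inv, mul_pow]
    have h2 : α ^ j * (σ x * ((w σ)⁻¹ ^ j * α⁻¹ ^ j)) = (α ^ j * α⁻¹ ^ j) * ((w σ)⁻¹ ^ j * σ x) := by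
      ring
    rw [h2, ← mul_pow, mul_inv_cancel₀ hα0, one_pow, one_mul]
  have hxv : P.valuation x ≤ 1 := (P.valuation_le_one_iff _).2 hx
  have hyv : ∀ j, P.valuation (y j) ≤ 1 := by
    intro j
    rw [hy']
    refine Valuation.map_sum_le _ fun σ _ => ?_
    rw [map_mul, map_pow, map_inv₀, hwv, inv_one, one_pow, one_mul]
    exact hinv σ x hxv
  have hsum : ∑ j ∈ Finset.range p, y j = p * x := by
    simp_rw [hy']
    rw [Finset.sum_comm, ← Finset.add_sum_erase Finset.univ _ (Finset.mem_univ (1 : M ≃ₐ[F] M))]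
    have h1 : w 1 = 1 := by rw [hw, AlgEquiv.one_apply, div_self hα0]
    have h2 : ∑ σ ∈ Finset.univ.erase (1 : M ≃ₐ[F] M),
        ∑ j ∈ Finset.range p, (w σ)⁻¹ ^ j * σ x = 0 := by
      refine Finset.sum_eq_zero fun σ hσ => ?_
      rw [← Finset.sum_mul]
      have h3 := mul_geom_sum (w σ)⁻¹ p
      rw [inv_pow, hwp, inv_one, sub_self] at h3
      rw [(mul_eq_zero.1 h3).resolve_left, zero_mul]
      intro e
      exact hwne σ (Finset.ne_of_mem_erase hσ) (inv_eq_one.1 (sub_eq_zero.1 e))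
    rw [h2, add_zero, h1]
    simp
  -- the other components are small
  have hsm : ∀ j, 0 < j → j < p → P.valuation (y j) < 1 := by
    intro j hj0 hjp
    refine lt_of_le_of_ne (hyv j) fun hj => ?_
    obtain ⟨c, hc⟩ : ∃ c, c = Algebra.trace F M (x * α⁻¹ ^ j) := ⟨_, rfl⟩
    have hyj : y j = α ^ j * algebraMap F M c := by rw [hy, hc]
    have h1 : algebraMap F M (a ^ j * c ^ p) = y j ^ p := by
      rw [hyj, mul_pow, map_mul, map_pow, map_pow, ha]
      ring
    have h2 : P.valuation (algebraMap F M (a ^ j * c ^ p)) = 1 := by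
      rw [h1, map_pow, hj, one_pow]
    have h3 : O.valuation (a ^ j * c ^ p) = 1 := by
      refine le_antisymm ?_ ?_
      · rw [O.valuation_le_one_iff, ← over_le hP, ← P.valuation_le_one_iff, h2]
      · by_contra hcc
        rw [not_le, ← over_lt hP, h2] at hcc
        exact lt_irrefl _ hcc
    obtain ⟨b, hb⟩ := hk _ h3
    have h4 : P.valuation (y j ^ p - algebraMap F M b ^ p) < 1 := by
      rw [← h1, ← map_pow, ← map_sub, over_lt hP]
      exact hb
    rw [(hζ.map_of_injective (algebraMap F M).injective).pow_sub_pow_eq_prod_sub_mul _ _ hp.pos,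
      map_prod] at h4
    obtain ⟨ω, hω, hω2⟩ : ∃ ω : M, ω ^ p = 1 ∧ P.valuation (y j - ω * algebraMap F M b) < 1 := by
      by_contra hcc
      push Not at hcc
      refine absurd h4 (not_lt.2 (Finset.one_le_prod' fun ω hω => ?_))
      apply hcc
      rwa [Polynomial.mem_nthRootsFinset hp.pos] at hω
    obtain ⟨i, -, hi⟩ := (hζ.map_of_injective (algebraMap F M).injective).eq_pow_of_pow_eq_one hω
    have h5 := hinv' τ _ hω2
    have h6 : τ (y j) = w τ ^ j * y j := by
      rw [hyj, map_mul, map_pow, hw1, AlgEquiv.commutes]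
      ring
    have h7 : τ (ω * algebraMap F M b) = ω * algebraMap F M b := by
      rw [← hi, ← map_pow, ← map_mul, AlgEquiv.commutes]
    rw [map_sub, h6, h7] at h5
    have h8 := Valuation.map_sub_lt _ h5 hω2
    have e8 : w τ ^ j * y j - ω * (algebraMap F M) b - (y j - ω * (algebraMap F M) b) =
        (w τ ^ j - 1) * y j := by ring
    rw [e8, map_mul, hj, mul_one] at h8
    have h9 : w τ ^ j ≠ 1 := by
      intro e
      have h10 : (w τ) ^ (Nat.gcd j p) = 1 := pow_gcd_eq_one.2 ⟨e, hwp τ⟩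
      rw [Nat.gcd_comm, (Nat.coprime_of_lt_prime (by omega) hjp hp), pow_one] at h10
      exact hwne τ hτ1 h10
    rw [root_sub hpM (by rw [← pow_mul, mul_comm, pow_mul, hwp, one_pow]) h9] at h8
    exact lt_irrefl _ h8
  -- conclusion
  have hp0 : (p : M) ≠ 0 := by
    intro e
    rw [e, map_zero] at hpM
    exact zero_ne_one hpM
  refine ⟨Algebra.trace F M x / p, ?_⟩
  have h1 : x - algebraMap F M (Algebra.trace F M x / p) =
      (∑ j ∈ Finset.range p, y j - y 0) / p := by
    rw [hsum, hy, pow_zero, pow_zero, one_mul, mul_one, map_div₀, map_natCast]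
    field_simp
  rw [h1, map_div₀, hpM, div_one]
  obtain ⟨q, hq⟩ : ∃ q, p = q + 1 := ⟨p - 1, by have := hp.pos; omega⟩
  rw [hq, Finset.sum_range_succ', add_sub_cancel_right]
  refine Valuation.map_sum_lt _ one_ne_zero fun j hj => ?_
  rw [Finset.mem_range] at hj
  exact hsm (j + 1) (Nat.succ_pos j) (by omega)

end

end Pool.Agent.Helper40.ET
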