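import Mathlib
import Pool.Agent.ETC.All
import Pool.Agent.Helper40.ET.Idx
import Pool.Agent.Helper40.ET.Res
import Pool.Agent.Helper40.ET.Comp1

set_option autoImplicit false

/-! STAR: the places of an extension of degree `p` lie over places. -/

namespace Pool.Agent.Helper40.ET

open Pool.Agent.Helper58.ET Pool.Agent.ETC

section Grp

variable {G : Type} [CommGroup G]

lemma gen_of_index {V : Subgroup G} {p : ℕ} (hp : p.Prime) (hV : V.index = p) {g : G}
    (hg : g ∉ V) (x : G) : ∃ n : ℕ, x / g ^ n ∈ V := by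
  have _ : Fact p.Prime := ⟨hp⟩
  have h1 : (QuotientGroup.mk g : G ⧸ V) ≠ 1 := by
    rwa [Ne, QuotientGroup.eq_one_iff]
  have h2 := mem_powers_of_prime_card (G := G ⧸ V) (p := p) hV h1 (g' := QuotientGroup.mk x)
  obtain ⟨n, hn⟩ := h2
  refine ⟨n, ?_⟩
  rw [← QuotientGroup.eq_one_iff, QuotientGroup.mk_div, QuotientGroup.mk_pow]
  dsimp only at hn
  rw [hn, div_self']

lemma index_of_gen {V : Subgroup G} {p : ℕ} (hp : p.Prime) {g : G} (hg : g ∉ V)
    (hgp : g ^ p ∈ V) (h : ∀ x : G, ∃ n : ℕ, x / g ^ n ∈ V) : V.index = p := by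
  have _ : Fact p.Prime := ⟨hp⟩
  have h1 : (QuotientGroup.mk g : G ⧸ V) ≠ 1 := by
    rwa [Ne, QuotientGroup.eq_one_iff]
  have h2 : (QuotientGroup.mk g : G ⧸ V) ^ p = 1 := by
    rw [← QuotientGroup.mk_pow, QuotientGroup.eq_one_iff]
    exact hgp
  have h3 : orderOf (QuotientGroup.mk g : G ⧸ V) = p := orderOf_eq_prime h2 h1
  have h4 : Subgroup.zpowers (QuotientGroup.mk g : G ⧸ V) = ⊤ := by
    rw [eq_top_iff]
    rintro q -
    obtain ⟨x, rfl⟩ := QuotientGroup.mk_surjective q
    obtain ⟨n, hn⟩ := h x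
    rw [← QuotientGroup.eq_one_iff, QuotientGroup.mk_div, QuotientGroup.mk_pow, div_eq_one] at hn
    rw [hn]
    exact pow_mem (Subgroup.mem_zpowers _) n
  have h5 : Nat.card (G ⧸ V) = orderOf (QuotientGroup.mk g : G ⧸ V) := by
    rw [← Nat.card_zpowers, h4, Subgroup.card_top]
  rw [Subgroup.index, h5, h3]

lemma dvd_of_pow_mem {V : Subgroup G} {p : ℕ} (hp : p.Prime) {g : G} (hg : g ∉ V)
    (hgp : g ^ p ∈ V) {n : ℕ} (hn : g ^ n ∈ V) : p ∣ n := by
  by_contra hc
  apply hg
  rw [← QuotientGroup.eq_one_iff] at hgp hn ⊢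
  rw [QuotientGroup.mk_pow] at hgp hn
  have h1 := pow_gcd_eq_one.2 ⟨hn, hgp⟩
  rw [Nat.gcd_comm, ((Nat.Prime.coprime_iff_not_dvd hp).2 hc), pow_one] at h1
  exact h1

end Grp

section

variable {F M : Type} [Field F] [Field M] [Algebra F M]

/-- values in the small and in the big field -/
lemma over_vle {O : ValuationSubring F} {P : ValuationSubring M}
    (hP : P.comap (algebraMap F M) = O) (x y : F) :
    P.valuation (algebraMap F M x) ≤ P.valuation (algebraMap F M y) ↔
      O.valuation x ≤ O.valuation y := by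
  by_cases hy : y = 0
  · rw [hy, map_zero, map_zero, map_zero, le_zero_iff, le_zero_iff, map_eq_zero, map_eq_zero,
      map_eq_zero]
  · have hy0 : 0 < O.valuation y := zero_lt_iff.2 ((Valuation.ne_zero_iff _).2 hy)
    have hy1 : 0 < P.valuation (algebraMap F M y) :=
      zero_lt_iff.2 ((Valuation.ne_zero_iff _).2 (by rwa [Ne, map_eq_zero]))
    rw [← div_le_one₀ hy0, ← div_le_one₀ hy1, ← map_div₀, ← map_div₀, ← map_div₀,
      O.valuation_le_one_iff, P.valuation_le_one_iff, ← hP, ValuationSubring.mem_comap]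

lemma over_vlt {O : ValuationSubring F} {P : ValuationSubring M}
    (hP : P.comap (algebraMap F M) = O) (x y : F) :
    P.valuation (algebraMap F M x) < P.valuation (algebraMap F M y) ↔
      O.valuation x < O.valuation y := by
  rw [← not_le, ← not_le, over_vle hP]

lemma over_veq {O : ValuationSubring F} {P : ValuationSubring M}
    (hP : P.comap (algebraMap F M) = O) (x y : F) :
    P.valuation (algebraMap F M x) = P.valuation (algebraMap F M y) ↔
      O.valuation x = O.valuation y := by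
  rw [le_antisymm_iff, le_antisymm_iff, over_vle hP, over_vle hP]

lemma pow_mem_VP {p : ℕ} (R : ValuationSubring F) (x : Fˣ) : x ^ p ∈ VP p R := by
  rw [mem_VP]
  exact ⟨x, by rw [Units.val_pow_eq_pow_val, map_pow]⟩

lemma unit_mem_VP {p : ℕ} {R : ValuationSubring F} {x : Fˣ} (hx : R.valuation (x : F) = 1) :
    x ∈ VP p R := by
  rw [mem_VP]
  exact ⟨1, by rw [hx, Units.val_one, map_one, one_pow]⟩

lemma nu_iff {p : ℕ} {R : ValuationSubring F} : NU p R ↔ ∃ c : Fˣ, c ∉ VP p R := by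
  unfold NU
  refine exists_congr fun c => ?_
  rw [mem_VP]
  push Not
  constructor
  · intro h y e
    apply h y⁻¹
    rw [Units.val_mul, map_mul, e, Units.val_pow_eq_pow_val, map_pow, ← mul_pow, ← map_mul,
      Units.mul_inv, map_one, one_pow]
  · intro h f e
    apply h f⁻¹
    rw [Units.val_mul, map_mul, Units.val_pow_eq_pow_val, map_pow] at e
    rw [Units.val_inv_eq_inv_val, map_inv₀, inv_pow]
    exact eq_inv_of_mul_eq_one_left e

lemma TR_le_VP {p : ℕ} (hp : p.Prime) {ζ : F} (hζ : IsPrimitiveRoot ζ p)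
    {R : ValuationSubring F} : TR p ζ R ≤ VP p R := by
  intro t ht
  obtain ⟨f, x, hx, e⟩ := (mem_TR hp.ne_zero hζ.pow_eq_one (hζ.ne_one hp.one_lt)).1 ht
  rw [mem_VP]
  exact ⟨f, by rw [e, map_mul, map_pow, val_one_add (hx.lt_one hp.ne_zero hζ.pow_eq_one),
    mul_one]⟩

lemma TR_map {p : ℕ} (hp : p.Prime) {ζ : F} (hζ : IsPrimitiveRoot ζ p)
    {O : ValuationSubring F} {P : ValuationSubring M}
    (hP : P.comap (algebraMap F M) = O) {t : Fˣ} (ht : t ∈ TR p ζ O) :
    Units.map (algebraMap F M : F →* M) t ∈ TR p (algebraMap F M ζ) P := by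
  have hζ' := hζ.map_of_injective (algebraMap F M).injective
  obtain ⟨f, x, hx, e⟩ := (mem_TR hp.ne_zero hζ.pow_eq_one (hζ.ne_one hp.one_lt)).1 ht
  rw [mem_TR hp.ne_zero hζ'.pow_eq_one (hζ'.ne_one hp.one_lt)]
  refine ⟨Units.map (algebraMap F M : F →* M) f, algebraMap F M x, ?_, ?_⟩
  · unfold Pool.Agent.ETC.Sm at hx ⊢
    rw [← map_pow, ← map_one (algebraMap F M), ← map_sub, ← map_pow, over_vlt hP, map_pow]
    exact hx
  · rw [Units.coe_map, Units.coe_map, MonoidHom.coe_coe, e, map_mul, map_pow, map_add, map_one]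

/-- The places of residue characteristic different from `p`. -/
theorem star_V1 [FiniteDimensional F M] [IsGalois F M] {p : ℕ} (hp : p.Prime)
    (hM : Module.finrank F M = p) {ζ : F} (hζ : IsPrimitiveRoot ζ p)
    {O : ValuationSubring F} {P : ValuationSubring M}
    (hP : P.comap (algebraMap F M) = O) (h : V1 p (algebraMap F M ζ) P) : V1 p ζ O := by
  have hζ' := hζ.map_of_injective (algebraMap F M).injective
  have hv : O.valuation (p : F) = 1 := by
    have h1 := h.pv
    rw [← map_natCast (algebraMap F M) p] at h1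
    have h2 := (over_veq hP (p : F) 1).1 (by rw [h1, map_one, map_one])
    rwa [map_one] at h2
  have hidx := idx_eq (F := F) hP hp.ne_zero
  have hnuP := nu_iff.1 h.nu
  have hnu : NU p O := by
    rw [nu_iff]
    by_contra hc
    push Not at hc
    have h1 : (VP p O).index = 1 := by
      rw [Subgroup.index_eq_one, eq_top_iff]
      intro x _
      exact hc x
    rw [h1, eq_comm, Subgroup.index_eq_one] at hidx
    obtain ⟨c, hc⟩ := hnuP
    rw [hidx] at hc
    exact hc (Subgroup.mem_top c)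
  refine ⟨hv, hnu, ?_⟩
  by_contra hnc
  push Not at hnc
  obtain ⟨g, hg⟩ := hnc
  have hgV : g ∉ VP p O := by
    intro h1
    obtain ⟨c, hc⟩ := nu_iff.1 hnu
    apply hc
    obtain ⟨n, hn⟩ := hg c
    have h2 := mul_mem (TR_le_VP hp hζ hn) (pow_mem h1 n)
    rwa [div_mul_cancel] at h2
  have hunit : ∀ u : Fˣ, O.valuation (u : F) = 1 → u ∈ TR p ζ O := by
    intro u hu
    obtain ⟨n, hn⟩ := hg u
    have h1 : g ^ n ∈ VP p O := by
      have h2 := div_mem (unit_mem_VP (p := p) hu) (TR_le_VP hp hζ hn)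
      rwa [div_div_cancel] at h2
    obtain ⟨m, rfl⟩ := dvd_of_pow_mem hp hgV (pow_mem_VP O g) h1
    have h2 : g ^ (p * m) ∈ TR p ζ O := by
      rw [mul_comm, pow_mul]
      exact pow_mem_TR _ _ _ _
    have h3 := mul_mem hn h2
    rwa [div_mul_cancel] at h3
  have hidxO : (VP p O).index = p := by
    refine index_of_gen hp hgV (pow_mem_VP O g) fun x => ?_
    obtain ⟨n, hn⟩ := hg x
    exact ⟨n, TR_le_VP hp hζ hn⟩
  have hk : ∀ u : F, O.valuation u = 1 → ∃ y : F, O.valuation (u - y ^ p) < 1 := by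
    intro u hu
    have hu0 : u ≠ 0 := by
      rintro rfl
      rw [map_zero] at hu
      exact zero_ne_one hu
    obtain ⟨y, w, hw, e'⟩ := (mem_TR hp.ne_zero hζ.pow_eq_one (hζ.ne_one hp.one_lt)).1
      (hunit (Units.mk0 u hu0) hu)
    rw [Units.val_mk0] at e'
    refine ⟨y, ?_⟩
    have h1 : u - (y : F) ^ p = (y : F) ^ p * w := by rw [e']; ring
    have hw1 := hw.lt_one hp.ne_zero hζ.pow_eq_one
    have h2 : O.valuation ((y : F) ^ p) = 1 := by
      rw [e', map_mul, val_one_add hw1, mul_one] at hu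
      exact hu
    rw [h1, map_mul, h2, one_mul]
    exact hw1
  obtain ⟨g', hg'⟩ := hnuP
  obtain ⟨x, hx⟩ := h.nc g'
  obtain ⟨n, hn⟩ := gen_of_index hp (hidx.symm.trans hidxO) hg' x
  refine hx n ?_
  obtain ⟨y, hy⟩ := mem_VP.1 hn
  obtain ⟨u, hu⟩ : ∃ u : Mˣ, u = x / g' ^ n / y ^ p := ⟨_, rfl⟩
  have huv : P.valuation (u : M) = 1 := by
    rw [hu, Units.val_div_eq_div_val, map_div₀, hy, Units.val_pow_eq_pow_val, map_pow, div_self]
    exact pow_ne_zero _ ((Valuation.ne_zero_iff _).2 y.ne_zero)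
  have e1 : x / g' ^ n = u * y ^ p := by rw [hu, div_mul_cancel]
  rw [e1]
  refine mul_mem ?_ (pow_mem_TR _ _ _ _)
  obtain ⟨f, hf⟩ := res_eq hp hM hζ hP hv hk ((P.valuation_le_one_iff _).1 huv.le)
  have hfv : P.valuation (algebraMap F M f) = 1 := by
    have e2 : algebraMap F M f = u + -((u : M) - algebraMap F M f) := by ring
    rw [e2, Valuation.map_add_eq_of_lt_left, huv]
    rw [Valuation.map_neg, huv]
    exact hf
  have hf0 : f ≠ 0 := by
    rintro rfl
    rw [map_zero, map_zero] at hfv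
    exact zero_ne_one hfv
  have hfO : O.valuation f = 1 := by
    have h2 := (over_veq hP f 1).1 (by rw [hfv, map_one, map_one])
    rwa [map_one] at h2
  have h3 := TR_map hp hζ hP (hunit (Units.mk0 f hf0) hfO)
  obtain ⟨f', hf'⟩ : ∃ f' : Mˣ, f' = Units.map (algebraMap F M : F →* M) (Units.mk0 f hf0) :=
    ⟨_, rfl⟩
  have hf'v : (f' : M) = algebraMap F M f := by rw [hf']; rfl
  rw [← hf'] at h3
  have h4 : u / f' ∈ TR p (algebraMap F M ζ) P := by
    apply sm_mem_TR
    rw [sm_of_pv hp hζ' h.pv]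
    have e3 : ((u / f' : Mˣ) : M) - 1 = ((u : M) - algebraMap F M f) / f' := by
      rw [Units.val_div_eq_div_val, ← hf'v, sub_div, div_self f'.ne_zero]
    rw [e3, map_div₀, hf'v, hfv, div_one]
    exact hf
  have h5 := mul_mem h4 h3
  rwa [div_mul_cancel] at h5

/-- The `p`-adic places. -/
theorem star_V2 [FiniteDimensional F M] {p : ℕ} (hp : p.Prime)
    {O : ValuationSubring F} {P : ValuationSubring M}
    (hP : P.comap (algebraMap F M) = O) (h : V2 p P) : V2 p O := by
  classical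
  have hpv : O.valuation (p : F) < 1 := by
    have h1 := h.pv
    rw [← map_natCast (algebraMap F M) p, over_lt hP] at h1
    exact h1
  have hfin : Finite (IsLocalRing.ResidueField O) := by
    have _ := h.fin
    let f : O →+* P := ((algebraMap F M).comp O.subtype).codRestrict P.toSubring
      (fun x => (over_le hP _).2 x.2)
    have hf : ∀ x : O, ((f x : P) : M) = algebraMap F M (x : F) := fun x => rfl
    have hloc : IsLocalHom f := by
      constructor
      intro x hx
      rw [ValuationSubring.valuation_eq_one_iff] at hx ⊢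
      rw [hf] at hx
      have h2 := (over_veq hP (x : F) 1).1 (by rw [hx, map_one, map_one])
      rwa [map_one] at h2
    exact Finite.of_injective (IsLocalRing.ResidueField.map f) (RingHom.injective _)
  refine ⟨hpv, hfin, ?_⟩
  obtain ⟨π, hπ1, hπ, ⟨e₀, he₀⟩, hπp⟩ := h.unif
  have hπ0 : 0 < P.valuation (π : M) := zero_lt_iff.2 ((Valuation.ne_zero_iff _).2 π.ne_zero)
  -- a uniformizer is not a `p`-th power modulo units
  have hnot : ∀ {L : Type} [Field L] {R : ValuationSubring L} {π : Lˣ},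
      R.valuation (π : L) < 1 → (∀ x : L, R.valuation x < 1 →
        R.valuation x ≤ R.valuation (π : L)) → π ∉ VP p R := by
    intro L _ R π h1 h2 h3
    obtain ⟨y, hy⟩ := mem_VP.1 h3
    have hπ0 : 0 < R.valuation (π : L) := zero_lt_iff.2 ((Valuation.ne_zero_iff _).2 π.ne_zero)
    have h4 : R.valuation (y : L) < 1 := by
      by_contra hc
      rw [not_lt] at hc
      rw [hy] at h1
      exact absurd h1 (not_lt.2 (one_le_pow₀ hc))
    have h5 := h2 _ h4
    have h6 : R.valuation (y : L) ^ p ≤ R.valuation (π : L) ^ 2 := by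
      calc R.valuation (y : L) ^ p ≤ R.valuation (π : L) ^ p := pow_le_pow_left₀ zero_le h5 p
        _ ≤ R.valuation (π : L) ^ 2 := pow_le_pow_right_of_le_one' h1.le hp.two_le
    rw [← hy, pow_two] at h6
    have h7 : R.valuation (π : L) * R.valuation (π : L) < R.valuation (π : L) :=
      mul_lt_of_lt_one_left hπ0 h1
    exact absurd h6 (not_le.2 h7)
  have hidxP : (VP p P).index = p := by
    refine index_of_gen hp (hnot hπ1 hπ) (pow_mem_VP P π) fun x => ?_
    obtain ⟨f, n, hf⟩ := hπp x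
    refine ⟨n, mem_VP.2 ⟨f, ?_⟩⟩
    rw [Units.val_div_eq_div_val, map_div₀, hf, Units.val_pow_eq_pow_val, map_pow,
      mul_div_cancel_right₀]
    exact pow_ne_zero _ hπ0.ne'
  have hidxO : (VP p O).index = p := (idx_eq (F := F) hP hp.ne_zero).trans hidxP
  -- the ramification index
  have hex : ∃ e : ℕ, 0 < e ∧ ∃ x : Fˣ, P.valuation (algebraMap F M (x : F)) =
      P.valuation (π : M) ^ e := by
    have h1 := fin_index (F := F) P
    have h2 := Subgroup.pow_index_mem
      (((uval P).comp (Units.map (algebraMap F M : F →* M))).range) (uval P π)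
    obtain ⟨x, hx⟩ := h2
    refine ⟨_, Nat.pos_of_ne_zero h1, x, ?_⟩
    have h3 := congrArg Units.val hx
    rw [Units.val_pow_eq_pow_val] at h3
    exact h3
  obtain ⟨e, ⟨he0, π₀, hπ₀⟩, hemin⟩ : ∃ e : ℕ, (0 < e ∧ ∃ x : Fˣ,
      P.valuation (algebraMap F M (x : F)) = P.valuation (π : M) ^ e) ∧
      ∀ j, j < e → ¬ (0 < j ∧ ∃ x : Fˣ, P.valuation (algebraMap F M (x : F)) =
        P.valuation (π : M) ^ j) :=
    ⟨Nat.find hex, Nat.find_spec hex, fun j hj => Nat.find_min hex hj⟩
  have hlad : ∀ (n : ℕ) (x : M), P.valuation (π : M) ^ n ≤ P.valuation x → P.valuation x < 1 →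
      ∃ j, 0 < j ∧ j ≤ n ∧ P.valuation x = P.valuation (π : M) ^ j := by
    intro n
    induction n with
    | zero =>
      intro x h1 h2
      rw [pow_zero] at h1
      exact absurd h2 (not_lt.2 h1)
    | succ n ih =>
      intro x h1 h2
      have h3 := hπ x h2
      rcases h3.eq_or_lt with h4 | h4
      · exact ⟨1, one_pos, by omega, by rw [pow_one, h4]⟩
      · obtain ⟨j, hj0, hjn, hj⟩ := ih (x / π) (by
          rw [map_div₀, le_div_iff₀ hπ0, ← pow_succ]
          exact h1) (by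
          rw [map_div₀, div_lt_one₀ hπ0]
          exact h4)
        refine ⟨j + 1, Nat.succ_pos j, by omega, ?_⟩
        rw [pow_succ, ← hj, map_div₀, div_mul_cancel₀ _ hπ0.ne']
  have hπ₀1 : O.valuation (π₀ : F) < 1 := by
    rw [← over_lt hP, hπ₀]
    exact pow_lt_one₀ zero_le hπ1 he0.ne'
  have hmax : ∀ x : F, O.valuation x < 1 → O.valuation x ≤ O.valuation (π₀ : F) := by
    intro x hx
    by_contra hc
    rw [not_le] at hc
    have hx0 : x ≠ 0 := by
      rintro rfl
      rw [map_zero] at hc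
      exact absurd hc (not_lt.2 zero_le)
    rw [← over_vlt hP, hπ₀] at hc
    rw [← over_lt hP] at hx
    obtain ⟨j, hj0, hjn, hj⟩ := hlad e _ hc.le hx
    rcases hjn.lt_or_eq with h1 | h1
    · exact hemin j h1 ⟨hj0, Units.mk0 x hx0, hj⟩
    · rw [hj, h1] at hc
      exact lt_irrefl _ hc
  refine ⟨π₀, hπ₀1, hmax, ⟨e₀, ?_⟩, fun x => ?_⟩
  · rw [← map_pow, ← over_vle hP, map_pow, map_pow, hπ₀, ← pow_mul, map_natCast]
    refine le_trans ?_ he₀
    exact pow_le_pow_right_of_le_one' hπ1.le (Nat.le_mul_of_pos_left _ he0)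
  · obtain ⟨n, hn⟩ := gen_of_index hp hidxO (hnot hπ₀1 hmax) x
    obtain ⟨f, hf⟩ := mem_VP.1 hn
    refine ⟨f, n, ?_⟩
    rw [← hf, Units.val_div_eq_div_val, map_div₀, Units.val_pow_eq_pow_val, map_pow,
      div_mul_cancel₀]
    exact pow_ne_zero _ ((Valuation.ne_zero_iff _).2 π₀.ne_zero)

/-- STAR -/
theorem star [FiniteDimensional F M] [IsGalois F M] {p : ℕ} (hp : p.Prime)
    (hM : Module.finrank F M = p) {ζ : F} (hζ : IsPrimitiveRoot ζ p)
    {O : ValuationSubring F} {P : ValuationSubring M}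
    (hP : P.comap (algebraMap F M) = O) (h : Pl p (algebraMap F M ζ) P) : Pl p ζ O :=
  h.imp (star_V1 hp hM hζ hP) (star_V2 hp hP)

end

theorem t_STAR : S_STAR := fun _ hp _ _ _ _ _ _ _ _ _ hζ hM _ _ hR =>
  star hp.out hM hζ rfl hR

theorem t_STARA (hN : S_STARNX) (hO : S_V2O) : S_STARA := by
  intro p hp F E _ _ _ _ _ ζ hζ hM hfin R hR
  have h1 : Pl p ζ (R.comap (algebraMap F E)) := star hp.out hM hζ rfl hR.1
  refine ⟨h1, ?_⟩
  rcases hp.out.eq_two_or_odd' with rfl | hodd
  · rcases hR.1 with h2 | h2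
    · exact hN F E ζ hζ hM hfin R h2 (star_V1 hp.out hM hζ rfl h2) hR.2
    · intro P hP hle
      exact absurd hle (hO F ζ hζ _ (star_V2 hp.out rfl h2) P hP)
  · exact NX.of_odd hodd ζ _

end Pool.Agent.Helper40.ET
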